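import Pool.Agent.V11134.RB.Main

/-!
# MP_415bd8_co: no bounded colour surplus forces rainbow subgraphs
-/

set_option autoImplicit false

namespace Pool.Agent.Results.MP_415bd8_co.NoBoundedSurplus

open Pool.Agent.V11134.RB

/-- For every `k` there are finite graphs `H` and `G` such that every proper edge colouring of `G` with at
most `χ'(G) + k` colours contains a rainbow copy of `H`, while some proper edge colouring of `G` contains
no rainbow copy of `H`. -/
theorem result : ∀ k : ℕ, ∃ (V W : Type) (_ : Fintype V) (_ : Fintype W)
    (H : SimpleGraph V) (G : SimpleGraph W),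
    (∀ c : Sym2 W → ℕ, IsProper G c → numColours G c ≤ chromaticIndex G + k → HasRainbow H G c) ∧
    ∃ c : Sym2 W → ℕ, IsProper G c ∧ ¬ HasRainbow H G c := by
  intro k
  obtain ⟨W, hW, G, h⟩ := core k 1 le_rfl
  exact ⟨_, W, inferInstance, hW, _, G, h⟩

end Pool.Agent.Results.MP_415bd8_co.NoBoundedSurplus
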